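import Pool.Agent.H63.UE.Circ
import Pool.Agent.H63.YQ.Dq

/-!
# The symmetry of the counting formulas
-/

set_option autoImplicit false
set_option linter.unusedSectionVars false

namespace Pool.Agent.H63.UE

open Pool.Agent.H63.YL Pool.Agent.H63.UB

variable {n g K : ℕ} [Finite {a : Nd n g K // Good a}]

/-- the nodes of the counting formulas of a cell -/
def In (e : Fin (K * K)) : Nd n g K → Prop
  | .top => True
  | .var x y => (x : ℕ) / g = (e : ℕ) / K ∧ (y : ℕ) / g = (e : ℕ) % K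
  | .pp e' _ _ _ _ _ => e' = e
  | .ds e' _ _ _ _ => e' = e
  | _ => False

/-- the colours: the points of the group `i` are named -/
def clr {N : ℕ} (g i : ℕ) (x : Fin N) : ℕ := if (x : ℕ) / g = i then (x : ℕ) + 1 else 0

theorem clr_fix {N g i : ℕ} {σ : Equiv.Perm (Fin N)} (h : ∀ x, clr g i (σ x) = clr g i x)
    {x : Fin N} (hx : (x : ℕ) / g = i) : σ x = x := by
  have h1 := h x
  unfold clr at h1
  rw [if_pos hx] at h1
  split_ifs at h1
  exact Fin.ext (by omega)

theorem in_totL {e : Fin (K * K)} {s s' r a : ℕ} :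
    In e (totL e s s' r a : Lit (Nd n g K)).node := by
  unfold totL
  split_ifs
  · exact trivial
  · exact trivial
  · exact rfl

theorem ea_div (hg : 1 ≤ g) {e : Fin (K * K)} {r : ℕ} (hr : r < g * g) :
    ea g K e r / g = (e : ℕ) / K := by
  have hr1 : r / g < g := (Nat.div_lt_iff_lt_mul hg).2 hr
  unfold ea
  rw [mul_comm, Nat.mul_add_div hg, Nat.div_eq_of_lt hr1, add_zero]

theorem eb_div (hg : 1 ≤ g) {e : Fin (K * K)} {r : ℕ} :
    eb g K e r / g = (e : ℕ) % K := by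
  have hr2 : r % g < g := Nat.mod_lt _ hg
  unfold eb
  rw [mul_comm, Nat.mul_add_div hg, Nat.div_eq_of_lt hr2, add_zero]

theorem in_prL (hg : 1 ≤ g) {e : Fin (K * K)} {s s' r b : ℕ} (hr : r < g * g) :
    In e (prL (pt n g K e s s' r) b : Lit (Nd n g K)).node := by
  rcases b with _ | _ | b
  · cases h : pt n g K e s s' r <;> exact trivial
  · unfold pt
    split_ifs with h
    · exact ⟨ea_div hg hr, eb_div hg⟩
    · exact trivial
  · cases h : pt n g K e s s' r <;> exact trivial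

theorem hom_cell (hg : 1 ≤ g) {e : Fin (K * K)} {L r : ℕ}
    (hr : rare (clr g ((e : ℕ) / K) : Fin (n + 1) → ℕ) L +
      rare (clr g ((e : ℕ) % K) : Fin n → ℕ) L ≤ r) (a : (Cc n g K).N)
    (ha : In e (show {a : Nd n g K // Good a} from a).1) : (Cc n g K).Hom L r a := by
  refine ⟨clr g ((e : ℕ) / K), clr g ((e : ℕ) % K), fun σ τ hσ hτ => ?_, hr⟩
  refine ⟨fun a b => a = b ∧ In e (show {a : Nd n g K // Good a} from a).1, ?_, rfl, ha⟩
  rintro ⟨a, ga⟩ _ ⟨rfl, hIn⟩
  -- nodes with children of the same kind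
  have key : ∀ S : Set (Lit (Nd n g K)), gate0 a = .and S → (∀ z ∈ S, In e z.node) →
      ∃ S' T : Set (Lit (Cc n g K).N), (Cc n g K).gate (⟨a, ga⟩ : {a : Nd n g K // Good a}) = .and S' ∧
        (Cc n g K).gate (⟨a, ga⟩ : {a : Nd n g K // Good a}) = .and T ∧
        (∀ x ∈ S', ∃ y ∈ T, y.pos = x.pos ∧ (x.node = y.node ∧
          In e (show {a : Nd n g K // Good a} from x.node).1)) ∧
        ∀ y ∈ T, ∃ x ∈ S', x.pos = y.pos ∧ (x.node = y.node ∧
          In e (show {a : Nd n g K // Good a} from x.node).1) := by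
    intro S hS hin
    have hgt : (Cc n g K).gate (⟨a, ga⟩ : {a : Nd n g K // Good a}) =
        .and {z | (⟨(show {a : Nd n g K // Good a} from z.node).1, z.pos⟩ : Lit (Nd n g K)) ∈ S} := by
      show resG (gate0 a) = _
      rw [hS]
      rfl
    refine ⟨_, _, hgt, hgt, ?_, ?_⟩
    · intro x hx
      exact ⟨x, hx, rfl, rfl, hin _ hx⟩
    · intro x hx
      exact ⟨x, hx, rfl, rfl, hin _ hx⟩
  cases a with
  | var x y =>
    left
    obtain ⟨h1, h2⟩ := hIn
    refine ⟨x, y, rfl, ?_⟩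
    rw [clr_fix hσ h1, clr_fix hτ h2]
    rfl
  | top => exact Or.inr (key ∅ rfl fun z hz => absurd hz (Set.notMem_empty _))
  | pp e' s s' r a b =>
    obtain rfl : e' = e := hIn
    refine Or.inr (key _ rfl ?_)
    rintro z (rfl | rfl)
    · exact in_totL
    · exact in_prL hg ga.2.2.1
  | ds e' s s' r l =>
    obtain rfl : e' = e := hIn
    refine Or.inr (key _ rfl ?_)
    rintro _ ⟨r', a, b, -, -, rfl⟩
    exact rfl
  | pg x => exact hIn.elim
  | hl y => exact hIn.elim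

/-- the colours: the point `x` is named -/
def mark {N : ℕ} (x : Fin N) (z : Fin N) : ℕ := if z = x then 1 else 0

theorem mark_fix {N : ℕ} {x : Fin N} {σ : Equiv.Perm (Fin N)} (h : ∀ z, mark x (σ z) = mark x z) :
    σ x = x := by
  have h1 := h x
  unfold mark at h1
  rw [if_pos rfl] at h1
  split_ifs at h1 with h2
  exact h2

theorem rare_mark {N L : ℕ} (x : Fin N) (hL : L + 1 ≤ N) : rare (mark x) L ≤ 1 := by
  classical
  unfold rare
  have h0 : ({x} : Set (Fin N)).ncard = 1 := Set.ncard_singleton x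
  refine le_trans (Set.ncard_le_ncard ?_ (Set.toFinite _)) h0.le
  intro z hz
  by_contra hzx
  have hzx' : z ≠ x := hzx
  have h1 : ({x} : Set (Fin N))ᶜ ⊆ {z' : Fin N | mark x z' = mark x z} := by
    intro y hy
    have hy' : y ≠ x := hy
    show mark x y = mark x z
    unfold mark
    rw [if_neg hy', if_neg hzx']
  have h2 := Set.ncard_le_ncard h1 (Set.toFinite _)
  have h3 := Set.ncard_add_ncard_compl ({x} : Set (Fin N))
  rw [Nat.card_eq_fintype_card, Fintype.card_fin] at h3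
  have h5 : {z' : Fin N | mark x z' = mark x z}.ncard < L := hz
  omega

theorem rare_const {N L : ℕ} (hL : L ≤ N) : rare (fun _ : Fin N => 0) L = 0 := by
  classical
  unfold rare
  rw [Set.ncard_eq_zero]
  ext z
  simp only [Set.mem_setOf_eq, Set.mem_empty_iff_false, iff_false, not_lt]
  have h3 : {z' : Fin N | True}.ncard = N := by
    rw [Set.setOf_true, Set.ncard_univ, Nat.card_eq_fintype_card, Fintype.card_fin]
  have h4 : {i' : Fin N | (0 : ℕ) = 0}.ncard = N := by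
    simp only [h3]
  omega

theorem hom_var {L r : ℕ} (hL : L + 1 ≤ n) (hr : 2 ≤ r) (x : Fin (n + 1)) (y : Fin n) :
    (Cc n g K).Hom L r (⟨.var x y, trivial⟩ : {a : Nd n g K // Good a}) := by
  refine ⟨mark x, mark y, fun σ τ hσ hτ => ?_, ?_⟩
  · refine ⟨fun a b => a = b ∧ (show {a : Nd n g K // Good a} from a).1 = .var x y, ?_, rfl, rfl⟩
    rintro ⟨a, ga⟩ _ ⟨rfl, hIn⟩
    obtain rfl : a = .var x y := hIn
    left
    refine ⟨x, y, rfl, ?_⟩
    rw [mark_fix hσ, mark_fix hτ]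
    rfl
  · have h1 := rare_mark (L := L) x (by omega)
    have h2 := rare_mark (L := L) y (by omega)
    omega

theorem hom_pg {L r : ℕ} (hL : L + 1 ≤ n) (hr : 2 ≤ r) (x : Fin (n + 1)) :
    (Cc n g K).Hom L r (⟨.pg x, trivial⟩ : {a : Nd n g K // Good a}) := by
  refine ⟨mark x, fun _ => 0, fun σ τ hσ _ => ?_, ?_⟩
  · refine ⟨fun a b => (∃ y, (show {a : Nd n g K // Good a} from a).1 = .var x y ∧
      (show {a : Nd n g K // Good a} from b).1 = .var x (τ y)) ∨
      ((show {a : Nd n g K // Good a} from a).1 = .pg x ∧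
      (show {a : Nd n g K // Good a} from b).1 = .pg x), ?_, Or.inr ⟨rfl, rfl⟩⟩
    rintro ⟨a, ga⟩ ⟨b, gb⟩ (⟨y, h1, h2⟩ | ⟨h1, h2⟩)
    · obtain rfl : a = .var x y := h1
      obtain rfl : b = .var x (τ y) := h2
      left
      refine ⟨x, y, rfl, ?_⟩
      rw [mark_fix hσ]
      rfl
    · obtain rfl : a = .pg x := h1
      obtain rfl : b = .pg x := h2
      right
      refine ⟨_, _, rfl, rfl, ?_, ?_⟩
      · rintro ⟨⟨c, gc⟩, pos⟩ ⟨y, hz⟩
        obtain ⟨rfl, rfl⟩ : c = .var x y ∧ pos = false :=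
          ⟨congrArg Lit.node hz, congrArg Lit.pos hz⟩
        exact ⟨⟨⟨.var x (τ y), trivial⟩, false⟩, ⟨τ y, rfl⟩, rfl, Or.inl ⟨y, rfl, rfl⟩⟩
      · rintro ⟨⟨c, gc⟩, pos⟩ ⟨y, hz⟩
        obtain ⟨rfl, rfl⟩ : c = .var x y ∧ pos = false :=
          ⟨congrArg Lit.node hz, congrArg Lit.pos hz⟩
        refine ⟨⟨⟨.var x (τ.symm y), trivial⟩, false⟩, ⟨τ.symm y, rfl⟩, rfl,
          Or.inl ⟨τ.symm y, rfl, ?_⟩⟩
        show Nd.var x y = _
        rw [Equiv.apply_symm_apply]
  · have h1 := rare_mark (L := L) x (by omega)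
    have h2 : rare (fun _ : Fin n => 0) L = 0 := rare_const (by omega)
    omega

theorem hom_hl {L r : ℕ} (hL : L + 1 ≤ n) (hr : 2 ≤ r) (y : Fin n) :
    (Cc n g K).Hom L r (⟨.hl y, trivial⟩ : {a : Nd n g K // Good a}) := by
  refine ⟨fun _ => 0, mark y, fun σ τ _ hτ => ?_, ?_⟩
  · refine ⟨fun a b => (∃ x, (show {a : Nd n g K // Good a} from a).1 = .var x y ∧
      (show {a : Nd n g K // Good a} from b).1 = .var (σ x) y) ∨
      ((show {a : Nd n g K // Good a} from a).1 = .hl y ∧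
      (show {a : Nd n g K // Good a} from b).1 = .hl y), ?_, Or.inr ⟨rfl, rfl⟩⟩
    rintro ⟨a, ga⟩ ⟨b, gb⟩ (⟨x, h1, h2⟩ | ⟨h1, h2⟩)
    · obtain rfl : a = .var x y := h1
      obtain rfl : b = .var (σ x) y := h2
      left
      refine ⟨x, y, rfl, ?_⟩
      rw [mark_fix hτ]
      rfl
    · obtain rfl : a = .hl y := h1
      obtain rfl : b = .hl y := h2
      right
      refine ⟨_, _, rfl, rfl, ?_, ?_⟩
      · rintro ⟨⟨c, gc⟩, pos⟩ ⟨x, hz⟩
        obtain ⟨rfl, rfl⟩ : c = .var x y ∧ pos = false :=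
          ⟨congrArg Lit.node hz, congrArg Lit.pos hz⟩
        exact ⟨⟨⟨.var (σ x) y, trivial⟩, false⟩, ⟨σ x, rfl⟩, rfl, Or.inl ⟨x, rfl, rfl⟩⟩
      · rintro ⟨⟨c, gc⟩, pos⟩ ⟨x, hz⟩
        obtain ⟨rfl, rfl⟩ : c = .var x y ∧ pos = false :=
          ⟨congrArg Lit.node hz, congrArg Lit.pos hz⟩
        refine ⟨⟨⟨.var (σ.symm x) y, trivial⟩, false⟩, ⟨σ.symm x, rfl⟩, rfl,
          Or.inl ⟨σ.symm x, rfl, ?_⟩⟩
        show Nd.var x y = _
        rw [Equiv.apply_symm_apply]
  · have h1 := rare_mark (L := L) y (by omega)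
    have h2 : rare (fun _ : Fin (n + 1) => 0) L = 0 := rare_const (by omega)
    omega

/-- all nodes are homogeneous -/
theorem hom_all (hg : 1 ≤ g) (hK : 0 < K * K) {L r : ℕ} (hL : L + 1 ≤ n) (hr2 : 2 ≤ r)
    (hr : ∀ i j : ℕ, rare (clr g i : Fin (n + 1) → ℕ) L + rare (clr g j : Fin n → ℕ) L ≤ r)
    (a : (Cc n g K).N) : (Cc n g K).Hom L r a := by
  obtain ⟨a, ga⟩ : {a : Nd n g K // Good a} := a
  cases a with
  | var x y => exact hom_var hL hr2 x y
  | top => exact hom_cell (e := ⟨0, hK⟩) hg (hr _ _) _ trivial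
  | pg x => exact hom_pg hL hr2 x
  | hl y => exact hom_hl hL hr2 y
  | pp e s s' i a b => exact hom_cell (e := e) hg (hr _ _) _ rfl
  | ds e s s' i l => exact hom_cell (e := e) hg (hr _ _) _ rfl

end Pool.Agent.H63.UE
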