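import Pool.Agent.H63.UE.Wide

/-!
# The counting argument with clauses of counters
-/

set_option autoImplicit false
set_option linter.unusedSectionVars false

namespace Pool.Agent.H63.UE

open Pool.Agent.H63.YL Pool.Agent.H63.UB Finset

variable {P H : Type} {C : Circuit P H} {R w : ℕ}

/-- the sum of the counters is at least `∑ v + 1` -/
def Up (c : Fin R → ℕ → Lit C.N) (v : Fin R → ℕ) : Set (Lit C.N) :=
  Set.range fun e => c e (v e + 1)

/-- the sum of the counters is less than `∑ v` -/
def Dn (c : Fin R → ℕ → Lit C.N) (v : Fin R → ℕ) : Set (Lit C.N) :=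
  Set.range fun e => (c e (v e)).neg

theorem sum_upd (v : Fin R → ℕ) (e : Fin R) (b : ℕ) :
    ∑ i, Function.update v e b i + v e = ∑ i, v i + b := by
  rw [sum_update_of_mem (mem_univ e), ← add_sum_erase univ v (mem_univ e)]
  have : univ \ {e} = univ.erase e := sdiff_singleton_eq_erase e univ
  rw [this]
  omega

theorem le_of_sum {v : Fin R → ℕ} {T : ℕ} (h : ∑ e, v e = T) (e : Fin R) : v e ≤ T := by
  rw [← h]
  exact single_le_sum (f := v) (fun _ _ => Nat.zero_le _) (mem_univ e)

theorem ncard_up (c : Fin R → ℕ → Lit C.N) (v : Fin R → ℕ) : (Up c v).ncard ≤ R :=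
  ncard_range _

theorem ncard_dn (c : Fin R → ℕ → Lit C.N) (v : Fin R → ℕ) : (Dn c v).ncard ≤ R :=
  ncard_range _

/-- lifting of lists -/
theorem ProvW.list (hw : W ≤ w) {s : List (Lit C.N)} (h : Pv C s) {Λ : Set (Lit C.N)}
    (hs : ∀ x ∈ s, x ∈ Λ) (hc : Λ.ncard ≤ w) : ProvW C w Λ :=
  (ProvW.of hw (show Prov C (Ln s) from h)).weak (fun x hx => hs x hx) hc

variable {M : ℕ} {c d : Fin R → ℕ → Lit C.N}

/-- one more -/
theorem up_step (hw : 2 * R + W + 10 ≤ w) {x : Lit C.N} {e₀ : Fin R}
    (hrl : ∀ e, Rl C M [x] (c e) (d e) 0 0) (h0 : Rl C M [x] (c e₀) (d e₀) 0 1)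
    (hc0 : Pv C [c e₀ 0]) {v : Fin R → ℕ} (hv : ∑ e, v e + 1 ≤ M)
    (ih : ∀ v' : Fin R → ℕ, ∑ e, v' e + 1 = ∑ e, v e → ProvW C w (Up c v')) :
    ProvW C w (insert x (Up d v)) := by
  have hle := le_of_sum (v := v) rfl
  have hcard : (insert x (Up d v)).ncard ≤ R + 1 := by
    have := Set.ncard_insert_le x (Up d v)
    have := ncard_up d v
    omega
  by_cases h1 : v e₀ = 0
  · have h2 := h0 0 (by omega) (by omega)
    rw [zero_add, zero_add] at h2
    have h3 : Pv C [d e₀ 1, x] := hc0.two' h2 (by simp [W]) fun α => by simp; tauto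
    refine ProvW.list (by omega) h3 ?_ (by omega)
    intro z hz
    simp only [List.mem_cons, List.not_mem_nil, or_false] at hz
    rcases hz with rfl | rfl
    · refine Or.inr ⟨e₀, ?_⟩
      show d e₀ (v e₀ + 1) = _
      rw [h1]
    · exact Set.mem_insert _ _
  · obtain ⟨b, hb⟩ : ∃ b, v e₀ = b + 1 := ⟨v e₀ - 1, by omega⟩
    obtain ⟨v', hv'⟩ : ∃ v', v' = Function.update v e₀ b := ⟨_, rfl⟩
    have h2 := ih v' (by
      have := sum_upd v e₀ b
      rw [← hv'] at this
      omega)
    have h3 : ProvW C w ((Set.range fun e => c e (v' e + 1)) ∪ {x}) := by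
      refine h2.weak Set.subset_union_left ?_
      have h5 := Set.ncard_union_le (Set.range fun e => c e (v' e + 1)) {x}
      have := ncard_range (fun e => c e (v' e + 1))
      rw [Set.ncard_singleton] at h5
      omega
    have h4 := repl (g := fun e => d e (v e + 1)) (by rw [Set.ncard_singleton]; omega) h3 ?_
    · refine h4.weak ?_ (by omega)
      rintro z (hz | hz)
      · exact Or.inr hz
      · exact Or.inl hz
    · intro e
      have hcard2 : ({(c e (v' e + 1)).neg, d e (v e + 1)} ∪ {x} : Set (Lit C.N)).ncard ≤ 3 := by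
        have h5 := Set.ncard_union_le ({(c e (v' e + 1)).neg, d e (v e + 1)} : Set (Lit C.N)) {x}
        have h6 := Set.ncard_insert_le (c e (v' e + 1)).neg {d e (v e + 1)}
        rw [Set.ncard_singleton] at h5 h6
        omega
      have hmem : ∀ z ∈ [(c e (v' e + 1)).neg, d e (v e + 1), x],
          z ∈ ({(c e (v' e + 1)).neg, d e (v e + 1)} ∪ {x} : Set (Lit C.N)) := by
        intro z hz
        simp only [List.mem_cons, List.not_mem_nil, or_false] at hz
        rcases hz with rfl | rfl | rfl
        · exact Or.inl (Set.mem_insert _ _)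
        · exact Or.inl (Set.mem_insert_of_mem _ rfl)
        · exact Or.inr rfl
      refine ProvW.list (by omega) ?_ hmem (by omega)
      by_cases he : e = e₀
      · subst he
        rw [hv', Function.update_self, hb]
        have h5 := h0 (b + 1) (by have := hle e; omega) (by have := hle e; omega)
        exact h5
      · rw [hv', Function.update_of_ne he]
        exact hrl e (v e + 1) (by have := hle e; omega) (by have := hle e; omega)

/-- one less -/
theorem dn_step (hw : 2 * R + W + 10 ≤ w) {x : Lit C.N} (hc : ∀ e, IsCtr C M (c e)) {e₀ : Fin R}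
    (hrl : ∀ e, e ≠ e₀ → Rl C M [x] (d e) (c e) 0 0) (h0 : Rl C M [x] (d e₀) (c e₀) 1 0)
    {v : Fin R → ℕ} (hv : ∑ e, v e ≤ M) (hv1 : 1 ≤ ∑ e, v e)
    (ih : ∀ v' : Fin R → ℕ, ∑ e, v' e + 1 = ∑ e, v e → ProvW C w (Dn c v')) :
    ProvW C w (insert x (Dn d v)) := by
  have hle := le_of_sum (v := v) rfl
  have hcard : (insert x (Dn d v)).ncard ≤ R + 1 := by
    have := Set.ncard_insert_le x (Dn d v)
    have := ncard_dn d v
    omega
  obtain ⟨e₁, b, hb, he₁⟩ : ∃ e₁ b, v e₁ = b + 1 ∧ (e₁ = e₀ ∨ v e₀ = 0) := by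
    by_cases h1 : v e₀ = 0
    · obtain ⟨e, he⟩ : ∃ e, 1 ≤ v e := by
        by_contra hcon
        push Not at hcon
        have : ∑ e, v e = 0 := sum_eq_zero fun e _ => by have := hcon e; omega
        omega
      exact ⟨e, v e - 1, by omega, Or.inr h1⟩
    · exact ⟨e₀, v e₀ - 1, by omega, Or.inl rfl⟩
  obtain ⟨v', hv'⟩ : ∃ v', v' = Function.update v e₁ b := ⟨_, rfl⟩
  have h2 := ih v' (by
    have := sum_upd v e₁ b
    rw [← hv'] at this
    omega)
  have h3 : ProvW C w ((Set.range fun e => (c e (v' e)).neg) ∪ {x}) := by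
    refine h2.weak Set.subset_union_left ?_
    have h5 := Set.ncard_union_le (Set.range fun e => (c e (v' e)).neg) {x}
    have := ncard_range (fun e => (c e (v' e)).neg)
    rw [Set.ncard_singleton] at h5
    omega
  have h4 := repl (g := fun e => (d e (v e)).neg) (by rw [Set.ncard_singleton]; omega) h3 ?_
  · refine h4.weak ?_ (by omega)
    rintro z (hz | hz)
    · exact Or.inr hz
    · exact Or.inl hz
  · intro e
    have hcard2 : ({(c e (v' e)).neg.neg, (d e (v e)).neg} ∪ {x} : Set (Lit C.N)).ncard ≤ 3 := by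
      have h5 := Set.ncard_union_le ({(c e (v' e)).neg.neg, (d e (v e)).neg} : Set (Lit C.N)) {x}
      have h6 := Set.ncard_insert_le (c e (v' e)).neg.neg {(d e (v e)).neg}
      rw [Set.ncard_singleton] at h5 h6
      omega
    have hmem : ∀ z ∈ [(c e (v' e)).neg.neg, (d e (v e)).neg, x],
        z ∈ ({(c e (v' e)).neg.neg, (d e (v e)).neg} ∪ {x} : Set (Lit C.N)) := by
      intro z hz
      simp only [List.mem_cons, List.not_mem_nil, or_false] at hz
      rcases hz with rfl | rfl | rfl
      · exact Or.inl (Set.mem_insert _ _)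
      · exact Or.inl (Set.mem_insert_of_mem _ rfl)
      · exact Or.inr rfl
    refine ProvW.list (by omega) ?_ hmem (by omega)
    by_cases he : e = e₁
    · subst he
      rw [hv', Function.update_self, hb]
      by_cases he0 : e = e₀
      · subst he0
        have h5 := h0 b (by have := hle e; omega) (by have := hle e; omega)
        refine h5.one' (by simp [W]) fun α => ?_
        simp
        tauto
      · have h5 := hrl e he0 (b + 1) (by have := hle e; omega) (by have := hle e; omega)
        have h6 := (hc e).anti b (by have := hle e; omega)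
        refine h5.two' h6 (by simp [W]) fun α => ?_
        simp
        tauto
    · rw [hv', Function.update_of_ne he]
      by_cases he0 : e = e₀
      · subst he0
        have h6 : v e = 0 := by
          rcases he₁ with h6 | h6
          · exact absurd h6.symm he
          · exact h6
        rw [h6]
        refine (hc e).zero.one' (by simp [W]) fun α => ?_
        simp
        tauto
      · have h5 := hrl e he0 (v e) (by have := hle e; omega) (by have := hle e; omega)
        refine h5.one' (by simp [W]) fun α => ?_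
        simp
        tauto


theorem anti_le {f : ℕ → Lit C.N} (hf : IsCtr C M f) {a b : ℕ} (hab : a ≤ b) (hb : b ≤ M) :
    Pv C [(f b).neg, f a] := by
  induction b, hab using Nat.le_induction with
  | base => exact Pv.zero' (by simp [W]) fun α => by simp; tauto
  | succ b _ ih => exact (ih (by omega)).two' (hf.anti b hb) (by simp [W]) fun α => by simp; tauto

theorem exists_le_sum {v : Fin R → ℕ} {T : ℕ} (h : T ≤ ∑ e, v e) :
    ∃ v' : Fin R → ℕ, (∀ e, v' e ≤ v e) ∧ ∑ e, v' e = T := by
  obtain ⟨k, hk⟩ : ∃ k, ∑ e, v e = T + k := ⟨∑ e, v e - T, by omega⟩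
  clear h
  induction k generalizing v with
  | zero => exact ⟨v, fun _ => le_rfl, hk⟩
  | succ k ih =>
    obtain ⟨e, he⟩ : ∃ e, 1 ≤ v e := by
      by_contra hcon
      push Not at hcon
      have : ∑ e, v e = 0 := sum_eq_zero fun e _ => by have := hcon e; omega
      omega
    have h1 := sum_upd v e (v e - 1)
    obtain ⟨v', h2, h3⟩ := ih (v := Function.update v e (v e - 1)) (by omega)
    refine ⟨v', fun i => (h2 i).trans ?_, h3⟩
    by_cases hi : i = e
    · rw [hi, Function.update_self]; omega
    · rw [Function.update_of_ne hi]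

/-- the clauses which say that the values of the first `j` counters are not `v` -/
def Qs (c : Fin R → ℕ → Lit C.N) (v : Fin R → ℕ) (j : ℕ) : Set (Lit C.N) :=
  {z | ∃ e : Fin R, (e : ℕ) < j ∧ (z = (c e (v e)).neg ∨ z = c e (v e + 1))}

theorem ncard_qs (c : Fin R → ℕ → Lit C.N) (v : Fin R → ℕ) (j : ℕ) : (Qs c v j).ncard ≤ 2 * R := by
  have h1 : Qs c v j ⊆ Dn c v ∪ Up c v := by
    rintro z ⟨e, -, rfl | rfl⟩
    · exact Or.inl ⟨e, rfl⟩
    · exact Or.inr ⟨e, rfl⟩
  have h2 := Set.ncard_le_ncard h1 (Set.toFinite _)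
  have h3 := Set.ncard_union_le (Dn c v) (Up c v)
  have := ncard_up c v
  have := ncard_dn c v
  omega

/-- the contradiction -/
theorem last (hw : 2 * R + W + 10 ≤ w) (hR : 0 < R) {m : ℕ} (hc : ∀ e, IsCtr C (m + 1) (c e))
    (hU : ∀ v : Fin R → ℕ, ∑ e, v e = m → ProvW C w (Up c v))
    (hD : ∀ v : Fin R → ℕ, ∑ e, v e = m + 1 → ProvW C w (Dn c v)) : ProvW C w ∅ := by
  classical
  have hsing : ∀ (y z : Lit C.N), ({y, z} ∪ ∅ : Set (Lit C.N)).ncard ≤ 2 := by
    intro y z
    rw [Set.union_empty]
    have := Set.ncard_insert_le y {z}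
    rw [Set.ncard_singleton] at this
    omega
  have hmem2 : ∀ (y z : Lit C.N), ∀ x ∈ [y, z], x ∈ ({y, z} ∪ ∅ : Set (Lit C.N)) := by
    intro y z x hx
    simp only [List.mem_cons, List.not_mem_nil, or_false] at hx
    rcases hx with rfl | rfl
    · exact Or.inl (Set.mem_insert _ _)
    · exact Or.inl (Set.mem_insert_of_mem _ rfl)
  have hemp : (∅ : Set (Lit C.N)).ncard = 0 := Set.ncard_empty _
  have hbig : ∀ e, ProvW C w {(c e (m + 1)).neg} := by
    intro e
    have h1 := hD (Pi.single e (m + 1)) (by simp)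
    have h2 : ProvW C w ((Set.range fun i => (c i ((Pi.single e (m + 1) : Fin R → ℕ) i)).neg) ∪ ∅) := by
      rw [Set.union_empty]; exact h1
    have h3 := repl (g := fun _ => (c e (m + 1)).neg) (by rw [hemp]; omega) h2 ?_
    · refine h3.weak ?_ (by rw [Set.ncard_singleton]; omega)
      rintro z (⟨i, rfl⟩ | hz)
      · exact rfl
      · exact absurd hz (Set.notMem_empty _)
    · intro i
      refine ProvW.list (by omega) ?_ (hmem2 _ _) ((hsing _ _).trans (by omega))
      by_cases hi : i = e
      · subst hi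
        rw [Pi.single_eq_same]
        exact Pv.zero' (by simp [W]) fun α => by simp; tauto
      · rw [Pi.single_eq_of_ne hi]
        exact (hc i).zero.one' (by simp [W]) fun α => by simp; tauto
  have key : ∀ k j, j + k = R → ∀ v : Fin R → ℕ, (∀ e, v e ≤ m) → ProvW C w (Qs c v j) := by
    intro k
    induction k with
    | zero =>
      intro j hj v hv
      obtain rfl : j = R := by omega
      have hq := ncard_qs c v j
      rcases Nat.lt_or_ge m (∑ e, v e) with h1 | h1
      · obtain ⟨v', h2, h3⟩ := exists_le_sum (v := v) (T := m + 1) (by omega)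
        have h4 : ProvW C w ((Set.range fun e => (c e (v' e)).neg) ∪ ∅) := by
          rw [Set.union_empty]; exact hD v' h3
        have h5 := repl (g := fun e => (c e (v e)).neg) (by rw [hemp]; omega) h4 ?_
        · refine h5.weak ?_ (by omega)
          rintro z (⟨e, rfl⟩ | hz)
          · exact ⟨e, e.2, Or.inl rfl⟩
          · exact absurd hz (Set.notMem_empty _)
        · intro e
          refine ProvW.list (by omega) ?_ (hmem2 _ _) ((hsing _ _).trans (by omega))
          have h6 := anti_le (hc e) (h2 e) (by have := hv e; omega)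
          exact h6.one' (by simp [W]) fun α => by simp; tauto
      · obtain ⟨v', hv'⟩ : ∃ v', v' = Function.update v ⟨0, hR⟩ (v ⟨0, hR⟩ + (m - ∑ e, v e)) :=
          ⟨_, rfl⟩
        have h3 : ∑ e, v' e = m := by
          have := sum_upd v ⟨0, hR⟩ (v ⟨0, hR⟩ + (m - ∑ e, v e))
          rw [← hv'] at this
          omega
        have h2 : ∀ e, v e ≤ v' e := by
          intro e
          by_cases he : e = ⟨0, hR⟩
          · rw [hv', he, Function.update_self]; omega
          · rw [hv', Function.update_of_ne he]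
        have h4 : ProvW C w ((Set.range fun e => c e (v' e + 1)) ∪ ∅) := by
          rw [Set.union_empty]; exact hU v' h3
        have h5 := repl (g := fun e => c e (v e + 1)) (by rw [hemp]; omega) h4 ?_
        · refine h5.weak ?_ (by omega)
          rintro z (⟨e, rfl⟩ | hz)
          · exact ⟨e, e.2, Or.inr rfl⟩
          · exact absurd hz (Set.notMem_empty _)
        · intro e
          refine ProvW.list (by omega) ?_ (hmem2 _ _) ((hsing _ _).trans (by omega))
          exact anti_le (hc e) (Nat.add_le_add_right (h2 e) 1)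
            (by have := le_of_sum h3 e; omega)
    | succ k ih =>
      intro j hj v hv
      have hjR : j < R := by omega
      have hq := ncard_qs c v j
      have h1 : ∀ a, a ≤ m + 1 → ProvW C w (insert (c ⟨j, hjR⟩ a) (Qs c v j)) := by
        intro a
        induction a with
        | zero =>
          intro _
          refine ProvW.list (by omega) (hc ⟨j, hjR⟩).zero ?_
            ((Set.ncard_insert_le _ _).trans (by omega))
          intro z hz
          rw [List.mem_singleton] at hz
          rw [hz]
          exact Set.mem_insert _ _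
        | succ a iha =>
          intro ha
          have h2 := iha (by omega)
          have h3 := ih (j + 1) (by omega) (Function.update v ⟨j, hjR⟩ a) (by
            intro e
            by_cases he : e = ⟨j, hjR⟩
            · rw [he, Function.update_self]; omega
            · rw [Function.update_of_ne he]; exact hv e)
          have h4 := Set.ncard_insert_le (c ⟨j, hjR⟩ (a + 1)) (Qs c v j)
          refine ProvW.cut (x := c ⟨j, hjR⟩ a) ?_ ?_ (by omega)
          · refine h2.weak (Set.insert_subset_insert (Set.subset_insert _ _)) ?_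
            exact (Set.ncard_insert_le _ _).trans (by omega)
          · refine h3.weak ?_ ((Set.ncard_insert_le _ _).trans (by omega))
            rintro z ⟨e, he, hz⟩
            by_cases hej : e = ⟨j, hjR⟩
            · subst hej
              rw [Function.update_self] at hz
              rcases hz with rfl | rfl
              · exact Set.mem_insert _ _
              · exact Set.mem_insert_of_mem _ (Set.mem_insert _ _)
            · rw [Function.update_of_ne hej] at hz
              refine Set.mem_insert_of_mem _ (Set.mem_insert_of_mem _ ⟨e, ?_, hz⟩)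
              have : (e : ℕ) ≠ j := fun h => hej (Fin.ext h)
              omega
      refine ProvW.cut (x := c ⟨j, hjR⟩ (m + 1)) (h1 (m + 1) le_rfl) ?_ (by omega)
      refine (hbig ⟨j, hjR⟩).weak ?_ ((Set.ncard_insert_le _ _).trans (by omega))
      rintro z rfl
      exact Set.mem_insert _ _
  have h1 := key R 0 (by omega) (fun _ => 0) (fun _ => Nat.zero_le _)
  refine h1.weak ?_ (by rw [hemp]; omega)
  rintro z ⟨e, he, -⟩
  omega

/-- **The contradiction.** -/
theorem contra_wide (hw : 2 * R + W + 10 ≤ w) (hR : 0 < R) {m : ℕ} {vr : P → H → C.N}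
    {px : ℕ → P} {hy : ℕ → H} {c : ℕ → ℕ → Fin R → ℕ → Lit C.N}
    (hctr : ∀ s s', s ≤ m + 1 → s' ≤ m → ∀ e, IsCtr C (m + 1) (c s s' e))
    (hnil : ∀ e, IsNil C (m + 1) (c (m + 1) 0 e))
    (hup : ∀ s, s < m + 1 → ∀ y, ∃ e₀,
      (∀ e, Rl C (m + 1) [⟨vr (px s) y, false⟩] (c s m e) (c (s + 1) m e) 0 0) ∧
      Rl C (m + 1) [⟨vr (px s) y, false⟩] (c s m e₀) (c (s + 1) m e₀) 0 1)
    (hdn : ∀ s, s < m → ∀ x, ∃ e₀,
      (∀ e, e ≠ e₀ → Rl C (m + 1) [⟨vr x (hy s), false⟩] (c (m + 1) (s + 1) e)
        (c (m + 1) s e) 0 0) ∧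
      Rl C (m + 1) [⟨vr x (hy s), false⟩] (c (m + 1) (s + 1) e₀) (c (m + 1) s e₀) 1 0)
    (hvr : ∀ x y, C.gate (vr x y) = .var x y)
    {pg : P → C.N} (hpg : ∀ x, C.gate (pg x) = .and {z | ∃ y, z = ⟨vr x y, false⟩})
    {hl : H → C.N} (hhl : ∀ y, C.gate (hl y) = .and {z | ∃ x, z = ⟨vr x y, false⟩}) :
    ProvW C w ∅ := by
  have hlist : ∀ (z : Lit C.N) (Λ : Set (Lit C.N)), Pv C [z] → Λ.ncard + 1 ≤ w →
      ProvW C w (insert z Λ) := by
    intro z Λ h hc
    refine ProvW.list (by omega) h ?_ ((Set.ncard_insert_le _ _).trans hc)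
    intro y hy
    rw [List.mem_singleton] at hy
    rw [hy]
    exact Set.mem_insert _ _
  have hP : ∀ s, s ≤ m + 1 → ∀ v : Fin R → ℕ, ∑ e, v e + 1 = s → ProvW C w (Up (c s m) v) := by
    intro s
    induction s with
    | zero => intro _ v hv; omega
    | succ s ih =>
      intro hs v hv
      have hcard := ncard_up (c (s + 1) m) v
      have h1 : ProvW C w (insert ⟨pg (px s), true⟩ (Up (c (s + 1) m) v)) := by
        refine ProvW.andI (hpg (px s)) ?_ (by omega)
        rintro _ ⟨y, rfl⟩
        obtain ⟨e₀, h2, h3⟩ := hup s (by omega) y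
        refine up_step (M := m + 1) hw h2 h3 (hctr s m (by omega) le_rfl e₀).zero (by omega) ?_
        intro v' hv'
        exact ih (by omega) v' (by omega)
      refine ProvW.cut h1 (hlist _ _ ?_ (by omega)) (by omega)
      exact Pv.pig (px s) (hpg (px s)) fun y => ⟨_, hvr _ _, y, rfl⟩
  have hH : ∀ s, s ≤ m → ∀ v : Fin R → ℕ, ∑ e, v e = s + 1 → ProvW C w (Dn (c (m + 1) s) v) := by
    intro s
    induction s with
    | zero =>
      intro _ v hv
      obtain ⟨e, he⟩ : ∃ e, 1 ≤ v e := by
        by_contra hcon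
        push Not at hcon
        have : ∑ e, v e = 0 := sum_eq_zero fun e _ => by have := hcon e; omega
        omega
      have h1 : v e = 0 + 1 := by have := le_of_sum hv e; omega
      have h2 := hnil e 0 (by omega)
      refine ProvW.list (by omega) h2 ?_ ((ncard_dn _ _).trans (by omega))
      intro z hz
      rw [List.mem_singleton] at hz
      rw [hz]
      refine ⟨e, ?_⟩
      show (c (m + 1) 0 e (v e)).neg = _
      rw [h1]
    | succ s ih =>
      intro hs v hv
      have hcard := ncard_dn (c (m + 1) (s + 1)) v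
      have h1 : ProvW C w (insert ⟨hl (hy s), true⟩ (Dn (c (m + 1) (s + 1)) v)) := by
        refine ProvW.andI (hhl (hy s)) ?_ (by omega)
        rintro _ ⟨x, rfl⟩
        obtain ⟨e₀, h2, h3⟩ := hdn s (by omega) x
        refine dn_step (M := m + 1) hw (hctr (m + 1) s le_rfl (by omega)) h2 h3 (by omega)
          (by omega) ?_
        intro v' hv'
        exact ih (by omega) v' (by omega)
      refine ProvW.cut h1 (hlist _ _ ?_ (by omega)) (by omega)
      exact Pv.hol (hy s) (hhl (hy s)) fun x => ⟨_, hvr _ _, x, rfl⟩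
  exact last hw hR (hctr (m + 1) m le_rfl le_rfl) (fun v hv => hP (m + 1) le_rfl v (by omega))
    (fun v hv => hH m le_rfl v hv)

end Pool.Agent.H63.UE
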