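import Pool.Agent.H63.UB.Sum

/-!
# Provability with lines of width `w`
-/

set_option autoImplicit false
set_option linter.unusedSectionVars false

namespace Pool.Agent.H63.UE

open Pool.Agent.H63.YL Pool.Agent.H63.UB

variable {P H : Type}

/-- the allowed lines -/
def OkW (C : Circuit P H) (w : ℕ) (Λ : Set (Lit C.N)) : Prop :=
  ∃ Δ : Set (Lit C.N), Δ.ncard ≤ w ∧ (Λ = Δ ∨ ∃ a S, C.gate a = .and S ∧ Λ = Δ ∪ Lit.neg '' S)

/-- the lines derived in `k` rounds -/
def DkW (C : Circuit P H) (w : ℕ) : ℕ → Set (Set (Lit C.N))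
  | 0 => ∅
  | k + 1 => DkW C w k ∪ {Λ | OkW C w Λ ∧ Step C (DkW C w k) Λ}

/-- the provable lines -/
def ProvW (C : Circuit P H) (w : ℕ) (Λ : Set (Lit C.N)) : Prop := ∃ k, Λ ∈ DkW C w k

theorem DkW_mono (C : Circuit P H) (w : ℕ) {k l : ℕ} (h : k ≤ l) : DkW C w k ⊆ DkW C w l := by
  induction h with
  | refl => exact subset_rfl
  | step _ ih => exact ih.trans Set.subset_union_left

theorem provW_step {C : Circuit P H} {w : ℕ} {Λ : Set (Lit C.N)} (hok : OkW C w Λ)
    (hs : Step C {Δ | ProvW C w Δ} Λ) : ProvW C w Λ := by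
  suffices h : ∃ k, Step C (DkW C w k) Λ by
    obtain ⟨k, hk⟩ := h
    exact ⟨k + 1, Or.inr ⟨hok, hk⟩⟩
  cases hs with
  | pigeon i h1 => exact ⟨0, .pigeon i h1⟩
  | hole j h1 => exact ⟨0, .hole j h1⟩
  | oneHole h1 h2 h3 h4 h5 => exact ⟨0, .oneHole h1 h2 h3 h4 h5⟩
  | onePigeon h1 h2 h3 h4 h5 => exact ⟨0, .onePigeon h1 h2 h3 h4 h5⟩
  | ident h1 h2 h3 => exact ⟨0, .ident h1 h2 h3⟩
  | weak h1 h2 =>
    obtain ⟨k, hk⟩ := h1
    exact ⟨k, .weak hk h2⟩
  | cut h1 h2 =>
    obtain ⟨k, hk⟩ := h1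
    obtain ⟨l, hl⟩ := h2
    exact ⟨max k l, .cut (DkW_mono C w (le_max_left _ _) hk) (DkW_mono C w (le_max_right _ _) hl)⟩
  | @andI S a h1 h2 h3 =>
    classical
    have h4 : ∀ x : S, ∃ k, insert x.1 Λ ∈ DkW C w k := fun x => h3 x.1 x.2
    choose k hk using h4
    have : Fintype S := Fintype.ofFinite S
    refine ⟨Finset.univ.sup k, .andI h1 h2 fun x hx => ?_⟩
    exact DkW_mono C w (Finset.le_sup (Finset.mem_univ (⟨x, hx⟩ : S))) (hk ⟨x, hx⟩)
  | andE h1 h2 h3 =>
    obtain ⟨k, hk⟩ := h3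
    exact ⟨k, .andE h1 h2 hk⟩

theorem provW_ok {C : Circuit P H} {w : ℕ} {Λ : Set (Lit C.N)} (h : ProvW C w Λ) :
    OkW C w Λ := by
  obtain ⟨k, hk⟩ := h
  induction k with
  | zero => exact absurd hk (Set.notMem_empty _)
  | succ k ih =>
    rcases hk with hk | hk
    · exact ih hk
    · exact hk.1

open Classical in
/-- the refutation made of all provable lines -/
noncomputable def RfW (C : Circuit P H) (w : ℕ) (h : ProvW C w ∅) : Refutation P H where
  C := C
  lines := {Λ | ProvW C w Λ}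
  order := fun Λ => sInf {k | Λ ∈ DkW C w k}
  step := by
    intro Λ hΛ
    have h1 : Λ ∈ DkW C w (sInf {k | Λ ∈ DkW C w k}) :=
      Nat.sInf_mem (s := {k | Λ ∈ DkW C w k}) hΛ
    obtain ⟨k, hk⟩ : ∃ k, k = sInf {k | Λ ∈ DkW C w k} := ⟨_, rfl⟩
    rw [← hk] at h1 ⊢
    rcases k with _ | k
    · exact absurd h1 (Set.notMem_empty _)
    rcases h1 with h1 | h1
    · exfalso
      have : sInf {k | Λ ∈ DkW C w k} ≤ k := Nat.sInf_le h1
      omega
    · refine step_mono ?_ h1.2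
      intro Δ hΔ
      refine ⟨⟨k, hΔ⟩, ?_⟩
      have : sInf {k | Δ ∈ DkW C w k} ≤ k := Nat.sInf_le hΔ
      omega
  empty_mem := h

theorem size_RfW (C : Circuit P H) (w : ℕ) (h : ProvW C w ∅) :
    (RfW C w h).size ≤ (2 * Nat.card C.N + 2) ^ (w + 1) := by
  classical
  have : Fintype C.N := Fintype.ofFinite _
  have : Fintype (Lit C.N) := Fintype.ofFinite _
  let g : (Fin w → Option (Lit C.N)) × Option C.N → Set (Lit C.N) := fun y =>
    {x | ∃ i, y.1 i = some x} ∪
      (match y.2 with | none => ∅ | some a => Lit.neg '' (C.gate a).children)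
  have h1 : (RfW C w h).lines ⊆ g '' Set.univ := by
    intro Λ hΛ
    obtain ⟨Δ, hΔ, hΛ⟩ := provW_ok hΛ
    -- enumerate
    have h2 : ∃ f : Fin w → Option (Lit C.N), {x | ∃ i, f i = some x} = Δ := by
      have hfin : Δ.Finite := Set.toFinite _
      let e := hfin.toFinset.equivFin
      have hc : hfin.toFinset.card = Δ.ncard := (Set.ncard_eq_toFinset_card Δ hfin).symm
      refine ⟨fun i => if hi : (i : ℕ) < hfin.toFinset.card then some (e.symm ⟨i, hi⟩).1 else none, ?_⟩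
      ext x
      constructor
      · rintro ⟨i, hi⟩
        dsimp only at hi
        split_ifs at hi with h3
        · have := (e.symm ⟨i, h3⟩).2
          rw [← Option.some.inj hi]
          exact hfin.mem_toFinset.1 this
      · intro hx
        have hx' : x ∈ hfin.toFinset := hfin.mem_toFinset.2 hx
        have h3 : ((e ⟨x, hx'⟩ : Fin _) : ℕ) < w := lt_of_lt_of_le (e ⟨x, hx'⟩).2 (by omega)
        refine ⟨⟨(e ⟨x, hx'⟩ : Fin _), h3⟩, ?_⟩
        have h4 := (e ⟨x, hx'⟩).2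
        dsimp only
        rw [dif_pos h4]
        simp
    obtain ⟨f, hf⟩ := h2
    rcases hΛ with rfl | ⟨a, S, hS, rfl⟩
    · refine ⟨(f, none), trivial, ?_⟩
      show {x | ∃ i, f i = some x} ∪ ∅ = _
      rw [hf]
      exact Set.union_empty _
    · refine ⟨(f, some a), trivial, ?_⟩
      show {x | ∃ i, f i = some x} ∪ Lit.neg '' (C.gate a).children = _
      rw [hf, hS]; rfl
  have h2 : (RfW C w h).lines.ncard ≤
      Nat.card ((Fin w → Option (Lit C.N)) × Option C.N) := by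
    refine (Set.ncard_le_ncard h1 (Set.toFinite _)).trans ?_
    refine (Set.ncard_image_le Set.finite_univ).trans ?_
    rw [Set.ncard_univ]
  have h3 : Nat.card ((Fin w → Option (Lit C.N)) × Option C.N) =
      (2 * Nat.card C.N + 1) ^ w * (Nat.card C.N + 1) := by
    rw [Nat.card_prod, Nat.card_fun, Nat.card_eq_fintype_card (α := Fin w), Fintype.card_fin,
      Finite.card_option, Finite.card_option, card_lit]
  rw [h3] at h2
  obtain ⟨m, hm⟩ : ∃ m, m = Nat.card C.N := ⟨_, rfl⟩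
  have h4 : (RfW C w h).size = Nat.card C.N + (RfW C w h).lines.ncard := rfl
  rw [h4, ← hm]
  rw [← hm] at h2
  have h5 : (2 * m + 1) ^ w ≤ (2 * m + 2) ^ w := Nat.pow_le_pow_left (by omega) _
  have h6 : 1 ≤ (2 * m + 2) ^ w := Nat.one_le_pow _ _ (by omega)
  calc m + (RfW C w h).lines.ncard ≤ m * (2 * m + 2) ^ w + (2 * m + 2) ^ w * (m + 1) := by
        refine Nat.add_le_add ?_ (h2.trans (Nat.mul_le_mul_right _ h5))
        calc m = m * 1 := (mul_one m).symm
          _ ≤ m * (2 * m + 2) ^ w := Nat.mul_le_mul_left m h6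
    _ ≤ (2 * m + 2) ^ w * (2 * m + 2) := by
        calc m * (2 * m + 2) ^ w + (2 * m + 2) ^ w * (m + 1)
            = (2 * m + 2) ^ w * (2 * m + 1) := by ring
          _ ≤ (2 * m + 2) ^ w * (2 * m + 2) := Nat.mul_le_mul_left _ (by omega)
    _ = (2 * m + 2) ^ (w + 1) := (pow_succ _ _).symm

/-! ### Rules -/

variable {C : Circuit P H} {w : ℕ}

theorem dk_le (C : Circuit P H) {w : ℕ} (hw : W ≤ w) (k : ℕ) : Dk C k ⊆ DkW C w k := by
  induction k with
  | zero => exact subset_rfl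
  | succ k ih =>
    rintro Λ (h | ⟨⟨Δ, h1, h2⟩, h3⟩)
    · exact Or.inl (ih h)
    · exact Or.inr ⟨⟨Δ, h1.trans hw, h2⟩, step_mono ih h3⟩

theorem ProvW.of (hw : W ≤ w) {Λ : Set (Lit C.N)} (h : Prov C Λ) : ProvW C w Λ := by
  obtain ⟨k, hk⟩ := h
  exact ⟨k, dk_le C hw k hk⟩

theorem ProvW.weak {Λ Δ : Set (Lit C.N)} (h : ProvW C w Δ) (hs : Δ ⊆ Λ) (hc : Λ.ncard ≤ w) :
    ProvW C w Λ :=
  provW_step ⟨Λ, hc, Or.inl rfl⟩ (.weak h hs)

theorem ProvW.cut {x : Lit C.N} {Λ : Set (Lit C.N)} (h : ProvW C w (insert x Λ))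
    (h' : ProvW C w (insert x.neg Λ)) (hc : Λ.ncard ≤ w) : ProvW C w Λ := by
  rcases x with ⟨a, _ | _⟩
  · exact provW_step ⟨Λ, hc, Or.inl rfl⟩ (.cut (a := a) h' h)
  · exact provW_step ⟨Λ, hc, Or.inl rfl⟩ (.cut (a := a) h h')

theorem ProvW.andI {a : C.N} {S : Set (Lit C.N)} {Λ : Set (Lit C.N)} (hg : C.gate a = .and S)
    (h : ∀ x ∈ S, ProvW C w (insert x Λ)) (hc : Λ.ncard + 2 ≤ w) :
    ProvW C w (insert ⟨a, true⟩ Λ) := by
  have h1 : (insert (⟨a, true⟩ : Lit C.N) Λ).ncard ≤ w :=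
    (Set.ncard_insert_le _ _).trans (by omega)
  refine provW_step ⟨_, h1, Or.inl rfl⟩ (.andI hg (Set.mem_insert _ _) ?_)
  intro x hx
  refine (h x hx).weak (Set.insert_subset_insert (Set.subset_insert _ _)) ?_
  refine (Set.ncard_insert_le _ _).trans ?_
  have := Set.ncard_insert_le (⟨a, true⟩ : Lit C.N) Λ
  omega

variable {R : ℕ}

theorem ncard_range (f : Fin R → Lit C.N) : (Set.range f).ncard ≤ R := by
  have h := Set.ncard_image_le (f := f) (s := Set.univ) Set.finite_univ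
  rw [Set.image_univ, Set.ncard_univ, Nat.card_eq_fintype_card, Fintype.card_fin] at h
  exact h

/-- replacement of all members -/
theorem repl {f g : Fin R → Lit C.N} {Γ : Set (Lit C.N)} (hc : Γ.ncard + 2 * R + 2 ≤ w)
    (h : ProvW C w (Set.range f ∪ Γ)) (hr : ∀ e, ProvW C w ({(f e).neg, g e} ∪ Γ)) :
    ProvW C w (Set.range g ∪ Γ) := by
  classical
  have key : ∀ A : Finset (Fin R), ProvW C w (f '' {e | e ∉ A} ∪ g '' {e | e ∈ A} ∪ Γ) := by
    intro A
    have hcard : ∀ A : Finset (Fin R),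
        (f '' {e | e ∉ A} ∪ g '' {e | e ∈ A} ∪ Γ).ncard ≤ Γ.ncard + 2 * R := by
      intro A
      have h1 : (f '' {e | e ∉ A}).ncard ≤ R :=
        (Set.ncard_le_ncard (Set.image_subset_range _ _) (Set.toFinite _)).trans (ncard_range f)
      have h2 : (g '' {e | e ∈ A}).ncard ≤ R :=
        (Set.ncard_le_ncard (Set.image_subset_range _ _) (Set.toFinite _)).trans (ncard_range g)
      have h3 := Set.ncard_union_le (f '' {e | e ∉ A} ∪ g '' {e | e ∈ A}) Γ
      have h4 := Set.ncard_union_le (f '' {e | e ∉ A}) (g '' {e | e ∈ A})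
      omega
    induction A using Finset.induction_on with
    | empty =>
      refine h.weak ?_ ((hcard _).trans (by omega))
      rintro x (⟨e, rfl⟩ | hx)
      · exact Or.inl (Or.inl ⟨e, Finset.notMem_empty _, rfl⟩)
      · exact Or.inr hx
    | insert e A _ ih =>
      have h1 := hcard (insert e A)
      refine ProvW.cut (x := f e) ?_ ?_ (by omega)
      · refine ih.weak ?_ ((Set.ncard_insert_le _ _).trans (by omega))
        rintro x ((⟨e', he', rfl⟩ | ⟨e', he', rfl⟩) | hx)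
        · by_cases h2 : e' = e
          · rw [h2]; exact Set.mem_insert _ _
          · refine Or.inr (Or.inl (Or.inl ⟨e', ?_, rfl⟩))
            show e' ∉ insert e A
            rw [Finset.mem_insert]
            rintro (h3 | h3)
            · exact h2 h3
            · exact he' h3
        · exact Or.inr (Or.inl (Or.inr ⟨e', Finset.mem_insert_of_mem he', rfl⟩))
        · exact Or.inr (Or.inr hx)
      · refine (hr e).weak ?_ ((Set.ncard_insert_le _ _).trans (by omega))
        rintro x ((rfl | rfl) | hx)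
        · exact Set.mem_insert _ _
        · exact Or.inr (Or.inl (Or.inr ⟨e, Finset.mem_insert_self _ _, rfl⟩))
        · exact Or.inr (Or.inr hx)
  have h1 := key Finset.univ
  refine h1.weak ?_ ?_
  · rintro x ((⟨e, he, rfl⟩ | ⟨e, he, rfl⟩) | hx)
    · exact absurd (Finset.mem_univ e) he
    · exact Or.inl ⟨e, rfl⟩
    · exact Or.inr hx
  · have := Set.ncard_union_le (Set.range g) Γ
    have := ncard_range g
    omega

end Pool.Agent.H63.UE
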